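import Pool.Agent.H7.HD.Targets11
import Pool.Agent.H7.HD9.All9

/-!
# MP_e37c09_lc: row VQ of the board `hd7_modules`: `VF` in terms of `Q` and `f`
-/

open Ordinal Cardinal Order Set
open scoped ZFSet

universe u

namespace Pool.Agent.H91.HDA.VQ

open _root_.HD

theorem X : T_VQ.{u} := by
  intro K lam Q f hK hK0 hVF hQ
  obtain ⟨C0, e, hC0, he, -, hcov⟩ := hVF
  have hKc : K.ord.cof = K := hK.cof_ord
  have hk : ∀ z : Ordinal.{u}, ∃ k < K.ord, ∀ a < K.ord, (Q (f k) a ↔ a.toZFSet ∈ e z) := by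
    intro z
    obtain ⟨β, hβ, h1⟩ := hQ.enu {a | a.toZFSet ∈ e z} (he z).1.od.ds
    obtain ⟨k, hk, rfl⟩ := hQ.sj.onto β hβ
    exact ⟨k, hk, h1⟩
  choose k hk1 hk2 using hk
  refine ⟨C0 ∩ {x | 0 < x ∧ ∀ y < x, k y < x}, All.ci K.ord _ _ (by rw [hKc]; exact hK0) hC0
    (All.ve K hK hK0 k fun x _ => hk1 x), ?_⟩
  rintro ν ⟨hν0, -, hν⟩ hνK S hS
  obtain ⟨z, hz, h1⟩ := hcov ν hν0 hνK (os ν S) (hod_os hS ν) fun y hy => by
    obtain ⟨a, ha, -, rfl⟩ := mem_os.1 hy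
    exact toZFSet_mem_toZFSet_iff.2 ha
  refine ⟨k z, hν z hz, fun a ha => ?_⟩
  rw [hk2 z a (ha.trans hνK)]
  have h2 : a.toZFSet ∈ os ν S ↔ a.toZFSet ∈ e z ∩ ν.toZFSet := by rw [← h1]
  rw [ord_mem_os, ZFSet.mem_inter, toZFSet_mem_toZFSet_iff] at h2
  constructor
  · intro h3
    exact (h2.2 ⟨h3, ha⟩).2
  · intro h3
    exact (h2.1 ⟨ha, h3⟩).1

end Pool.Agent.H91.HDA.VQ
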