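import Pool.Agent.H7.HD.Targets11
import Pool.Agent.H7.HD9.All9
import Pool.Agent.H48.HD.SR
import Pool.Agent.H92.HD.PC

/-!
# MP_e37c09_lc: row NX of the board `hd7_modules`: almost all points are not exceptional
-/

open Ordinal Cardinal Order Set
open scoped ZFSet

universe u

namespace Pool.Agent.H91.HDA.NX

open _root_.HD

theorem X : T_NX.{u} := by
  intro D K lam W hD hD0 hK hDK hW hF
  have hKc : K.ord.cof = K := hK.cof_ord
  have hDle : D ≤ K.ord.cof := by rw [hKc]; exact hDK.le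
  have key : ∀ M : Cardinal.{u}, M.IsRegular → M < D → {ν : Ordinal.{u} | M < ν.cof} ∈ W := by
    intro M hM hMD
    have h1 : Pos M.ord K.ord univ := All.vc M K.ord hM (by rw [hKc]; exact hMD.trans hDK)
    have h2 := Pool.Agent.H48.HD.SR.sr D M K.ord W hD hD0 hDle hW hM hMD univ h1
    filter_upwards [h2, hW.lim] with ν h3 h4
    exact Pool.Agent.H92.HD.pc M ν univ hM h4 h3
  have hone : ∀ τ : Ordinal.{u}, {ν : Ordinal.{u} | τ.cof ≠ ν.cof} ∈ W := by
    intro τ
    by_cases hM : τ.cof.IsRegular ∧ τ.cof < D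
    · filter_upwards [key τ.cof hM.1 hM.2] with ν h1 h2
      have h3 : τ.cof < ν.cof := h1
      rw [h2] at h3
      exact lt_irrefl _ h3
    · filter_upwards [hW.lim, hW.cf] with ν h1 h2 h3
      have h4 : ν.cof < D := h2
      exact hM ⟨by rw [h3]; exact Cardinal.isRegular_cof h1, by rw [h3]; exact h4⟩
  obtain ⟨t, ht, e, he⟩ := hF
  have hall := hW.cmp t ht (fun i => {ν : Ordinal.{u} | (e i).cof ≠ ν.cof})
    (fun i _ => hone (e i))
  filter_upwards [hall, key ℵ₀ Cardinal.isRegular_aleph0 hD0] with ν h1 h2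
  refine ⟨h2, fun τ hτ => ?_⟩
  obtain ⟨a, ha, rfl⟩ := he τ hτ
  exact h1 a ha

end Pool.Agent.H91.HDA.NX
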